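import Pool.Agent.H75.PS.Main

/-!
Additive energy of sets of primes of one octave (MP_c59857_nt, local two-point gap).
-/

set_option autoImplicit false

open Finset

namespace Pool.Agent.H56.QP

open Pool.Agent.H75.PS

/-- pairs `(a, b)` with `a = b + t` -/
def PA (S : Finset ℕ) (t : ℕ) : Finset (ℕ × ℕ) := (S ×ˢ S).filter (fun x => x.1 = x.2 + t)

/-- pairs `(a, b)` with `b = a + t` -/
def PB (S : Finset ℕ) (t : ℕ) : Finset (ℕ × ℕ) := (S ×ˢ S).filter (fun x => x.2 = x.1 + t)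

theorem card_PB (S : Finset ℕ) (t : ℕ) : (PB S t).card = (PA S t).card := by
  apply Finset.card_bij (fun x _ => (x.2, x.1))
  · intro x hx
    simp only [PB, PA, mem_filter, mem_product] at hx ⊢
    exact ⟨⟨hx.1.2, hx.1.1⟩, hx.2⟩
  · intro x _ y _ h
    rw [Prod.mk.injEq] at h
    exact Prod.ext h.2 h.1
  · intro x hx
    refine ⟨(x.2, x.1), ?_, rfl⟩
    simp only [PB, PA, mem_filter, mem_product] at hx ⊢
    exact ⟨⟨hx.1.2, hx.1.1⟩, hx.2⟩

/-- the quadruples of the energy -/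
def Quad (S : Finset ℕ) : Finset ((ℕ × ℕ) × (ℕ × ℕ)) :=
  ((S ×ˢ S) ×ˢ (S ×ˢ S)).filter (fun x => x.1.1 + x.2.1 = x.1.2 + x.2.2)

theorem quad_le (S : Finset ℕ) (M : ℕ) (hS : ∀ q ∈ S, M ≤ q ∧ q ≤ 2 * M) :
    (Quad S).card ≤ ∑ t ∈ range (M + 1), 2 * (PA S t).card ^ 2 := by
  classical
  have hsub : Quad S ⊆ (range (M + 1)).biUnion
      (fun t => (PA S t ×ˢ PB S t) ∪ (PB S t ×ˢ PA S t)) := by
    intro x hx
    simp only [Quad, mem_filter, mem_product] at hx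
    obtain ⟨⟨⟨h1, h2⟩, h3, h4⟩, h5⟩ := hx
    have a1 := hS _ h1
    have a2 := hS _ h2
    have a3 := hS _ h3
    have a4 := hS _ h4
    rw [mem_biUnion]
    rcases le_total x.1.2 x.1.1 with h | h
    · refine ⟨x.1.1 - x.1.2, mem_range.2 (by omega), mem_union_left _ ?_⟩
      simp only [PA, PB, mem_filter, mem_product]
      exact ⟨⟨⟨h1, h2⟩, by omega⟩, ⟨h3, h4⟩, by omega⟩
    · refine ⟨x.1.2 - x.1.1, mem_range.2 (by omega), mem_union_right _ ?_⟩
      simp only [PA, PB, mem_filter, mem_product]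
      exact ⟨⟨⟨h1, h2⟩, by omega⟩, ⟨h3, h4⟩, by omega⟩
  refine (card_le_card hsub).trans (card_biUnion_le.trans ?_)
  apply Finset.sum_le_sum
  intro t _
  refine (card_union_le _ _).trans ?_
  rw [card_product, card_product, card_PB]
  exact le_of_eq (by ring)

theorem pa_zero (S : Finset ℕ) : (PA S 0).card ≤ S.card := by
  apply Finset.card_le_card_of_injOn (fun x => x.1)
  · intro x hx
    simp only [PA, coe_filter, mem_product, Set.mem_ofPred_eq] at hx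
    exact hx.1.1
  · intro x hx y hy h
    simp only [PA, coe_filter, mem_product, Set.mem_ofPred_eq] at hx hy h
    exact Prod.ext h (by omega)

theorem pa_odd (S : Finset ℕ) (m t : ℕ) (hm : 2 ≤ m)
    (hS : ∀ q ∈ S, q.Prime ∧ 2 ^ m ≤ q) (ht : ¬ 2 ∣ t) : (PA S t).card = 0 := by
  rw [card_eq_zero, eq_empty_iff_forall_notMem]
  intro x hx
  simp only [PA, mem_filter, mem_product] at hx
  have h4 : 4 ≤ 2 ^ m := by
    calc 4 = 2 ^ 2 := by norm_num
      _ ≤ 2 ^ m := Nat.pow_le_pow_right (by norm_num) hm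
  have o1 : x.1 % 2 = 1 := (hS _ hx.1.1).1.eq_two_or_odd.resolve_left
    (by have := (hS _ hx.1.1).2; omega)
  have o2 : x.2 % 2 = 1 := (hS _ hx.1.2).1.eq_two_or_odd.resolve_left
    (by have := (hS _ hx.1.2).2; omega)
  have h5 := hx.2
  omega

theorem pa_even (S : Finset ℕ) (m k : ℕ) (hm : 2 ≤ m)
    (hS : ∀ q ∈ S, q.Prime ∧ 2 ^ m ≤ q ∧ q ≤ 2 ^ (m + 1)) :
    (PA S (2 * k)).card ≤ cnt 2 m k := by
  unfold cnt
  have h4 : 4 ≤ 2 ^ m := by
    calc 4 = 2 ^ 2 := by norm_num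
      _ ≤ 2 ^ m := Nat.pow_le_pow_right (by norm_num) hm
  have odd : ∀ q ∈ S, q % 2 = 1 := fun q hq => (hS _ hq).1.eq_two_or_odd.resolve_left
    (by have := (hS _ hq).2.1; omega)
  have e2 : 2 ^ m = 2 * 2 ^ (m - 1) := by
    rw [← pow_succ']; congr 1; omega
  have e3 : 2 ^ (m + 1) = 4 * 2 ^ (m - 1) := by
    rw [pow_succ, e2]; ring
  apply Finset.card_le_card_of_injOn (fun x => (x.2 - 1) / 2)
  · intro x hx
    simp only [PA, coe_filter, mem_product, Set.mem_ofPred_eq] at hx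
    obtain ⟨⟨h1, h2⟩, h3⟩ := hx
    have o2 := odd _ h2
    obtain ⟨p2, b1, b2⟩ := hS _ h2
    obtain ⟨p1, _, _⟩ := hS _ h1
    simp only [coe_filter, Set.mem_ofPred_eq, mem_Ico]
    have e4 : 2 * ((x.2 - 1) / 2) + 1 = x.2 := by omega
    rw [e4, ← h3]
    refine ⟨⟨by omega, by omega⟩, p2, p1⟩
  · intro x hx y hy h
    simp only [PA, coe_filter, mem_product, Set.mem_ofPred_eq] at hx hy h
    have o1 := odd _ hx.1.2
    have o2 := odd _ hy.1.2
    have h7 := hx.2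
    have h8 := hy.2
    exact Prod.ext (by omega) (by omega)

theorem sum_even (T : ℕ) (f : ℕ → ℝ) (hf : ∀ t, ¬ 2 ∣ t → f t = 0) :
    ∑ t ∈ range (2 * T + 1), f t = ∑ k ∈ range (T + 1), f (2 * k) := by
  induction T with
  | zero => simp
  | succ n ih =>
    rw [show 2 * (n + 1) + 1 = 2 * n + 1 + 1 + 1 by ring, sum_range_succ, sum_range_succ, ih,
      sum_range_succ (fun k => f (2 * k)) (n + 1), hf (2 * n + 1) (by omega)]
    rw [show 2 * n + 1 + 1 = 2 * (n + 1) by ring]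
    ring

/-- the additive energy of a set of primes of one octave -/
theorem pen : ∃ C : ℝ, 0 < C ∧ ∀ (m : ℕ) (S : Finset ℕ), 1 ≤ m →
    (∀ q ∈ S, q.Prime ∧ 2 ^ m ≤ q ∧ q ≤ 2 ^ (m + 1)) →
    ((((S ×ˢ S) ×ˢ (S ×ˢ S)).filter (fun x => x.1.1 + x.2.1 = x.1.2 + x.2.2)).card : ℝ) ≤
      C * ((2 : ℝ) ^ m) ^ 3 / (m : ℝ) ^ 4 := by
  classical
  obtain ⟨m₁, hm₁⟩ := growth 2
  have hC := CC_nonneg
  set K : ℝ := 16 + 16 * 200000 ^ 2 * CC ^ 4 with hK
  have hK0 : 0 < K := by positivity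
  refine ⟨K + 16 * (m₁ + 1 : ℝ) ^ 4, by positivity, fun m S hm1 hS => ?_⟩
  have hM : (0 : ℝ) < (2 : ℝ) ^ m := by positivity
  have hm0 : (0 : ℝ) < m := by exact_mod_cast hm1
  have hcard : S.card ≤ 2 ^ m + 1 := by
    have h1 : S ⊆ Icc (2 ^ m) (2 ^ (m + 1)) := fun q hq => mem_Icc.2 (hS q hq).2
    have h2 := card_le_card h1
    rw [Nat.card_Icc] at h2
    have h3 : 2 ^ (m + 1) = 2 * 2 ^ m := by ring
    omega
  have hcr : (S.card : ℝ) ≤ 2 * 2 ^ m := by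
    have h1 : (S.card : ℝ) ≤ ((2 ^ m + 1 : ℕ) : ℝ) := Nat.cast_le.2 hcard
    push_cast at h1
    have h2 : (1 : ℝ) ≤ 2 ^ m := one_le_pow₀ (by norm_num)
    linarith
  have hq := quad_le S (2 ^ m) (fun q hq => ⟨(hS q hq).2.1, by
    have := (hS q hq).2.2; rw [pow_succ'] at this; exact this⟩)
  have hqr : ((Quad S).card : ℝ) ≤ ∑ t ∈ range (2 ^ m + 1), 2 * ((PA S t).card : ℝ) ^ 2 := by
    have h1 : ((Quad S).card : ℝ) ≤ ((∑ t ∈ range (2 ^ m + 1), 2 * (PA S t).card ^ 2 : ℕ) : ℝ) :=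
      Nat.cast_le.2 hq
    push_cast at h1
    exact h1
  change ((Quad S).card : ℝ) ≤ _
  by_cases hbig : m₁ ≤ m
  · obtain ⟨h96, _, hg3, hg4⟩ := hm₁ m hbig
    have e2 : 2 ^ m = 2 * 2 ^ (m - 1) := by
      rw [← pow_succ']; congr 1; omega
    have hsum : ∑ t ∈ range (2 ^ m + 1), 2 * ((PA S t).card : ℝ) ^ 2 =
        ∑ k ∈ range (2 ^ (m - 1) + 1), 2 * ((PA S (2 * k)).card : ℝ) ^ 2 := by
      rw [show 2 ^ m + 1 = 2 * 2 ^ (m - 1) + 1 by rw [← e2]]
      apply sum_even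
      intro t ht
      rw [pa_odd S m t (by omega) (fun q hq => ⟨(hS q hq).1, (hS q hq).2.1⟩) ht]
      norm_num
    rw [hsum, sum_range_succ'] at hqr
    have h0 : 2 * ((PA S (2 * 0)).card : ℝ) ^ 2 ≤ 8 * (2 ^ m) ^ 2 := by
      have h1 : ((PA S (2 * 0)).card : ℝ) ≤ S.card := Nat.cast_le.2 (pa_zero S)
      have h2 : ((PA S (2 * 0)).card : ℝ) ≤ 2 * 2 ^ m := h1.trans hcr
      calc 2 * ((PA S (2 * 0)).card : ℝ) ^ 2 ≤ 2 * (2 * 2 ^ m) ^ 2 := by gcongr
        _ = _ := by ring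
    set X : ℝ := 2 ^ m * 2 / (m : ℝ) ^ 2 with hX
    have hX0 : 0 < X := by positivity
    have hT : ((2 ^ (m - 1) : ℕ) : ℝ) ≤ 2 ^ m := by
      push_cast
      exact pow_le_pow_right₀ (by norm_num) (by omega)
    obtain ⟨T, hTdef⟩ : ∃ T : ℕ, T = 2 ^ (m - 1) := ⟨_, rfl⟩
    rw [← hTdef] at hqr hT
    have h1 : ∑ k ∈ range T, 2 * ((PA S (2 * (k + 1))).card : ℝ) ^ 2 ≤
        2 * 200000 ^ 2 * X ^ 2 * (CC ^ 4 * 2 ^ m) := by
      calc ∑ k ∈ range T, 2 * ((PA S (2 * (k + 1))).card : ℝ) ^ 2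
          = ∑ t ∈ Icc 1 T, 2 * ((PA S (2 * t)).card : ℝ) ^ 2 := by
            rw [range_eq_Ico, sum_Ico_add' (fun t => 2 * ((PA S (2 * t)).card : ℝ) ^ 2) 0 _ 1]
            apply sum_congr _ (fun _ _ => rfl)
            ext x
            simp only [mem_Ico, mem_Icc]
            omega
        _ ≤ ∑ t ∈ Icc 1 T, 2 * (200000 ^ 2 * X ^ 2 *
              (∏ p ∈ t.primeFactors, (1 + 1 / (p : ℝ))) ^ 4) := by
            apply sum_le_sum
            intro t ht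
            rw [mem_Icc] at ht
            have b1 := cnt_le 2 m t (by decide) (by norm_num) (by omega) h96
              (by calc 2 = 2 ^ 1 := by norm_num
                    _ ≤ 2 ^ m := Nat.pow_le_pow_right (by norm_num) (by omega)) hg3
            have b2 : ((PA S (2 * t)).card : ℝ) ≤ cnt 2 m t :=
              Nat.cast_le.2 (pa_even S m t (by omega) hS)
            have b3 : ((PA S (2 * t)).card : ℝ) ≤
                200000 * X * (∏ p ∈ t.primeFactors, (1 + 1 / (p : ℝ))) ^ 2 := by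
              refine b2.trans (b1.trans (le_of_eq ?_))
              rw [hX, Nat.totient_two]
              norm_num
            calc 2 * ((PA S (2 * t)).card : ℝ) ^ 2 ≤
                2 * (200000 * X * (∏ p ∈ t.primeFactors, (1 + 1 / (p : ℝ))) ^ 2) ^ 2 := by gcongr
              _ = _ := by ring
        _ = 2 * 200000 ^ 2 * X ^ 2 * ∑ t ∈ Icc 1 T,
              (∏ p ∈ t.primeFactors, (1 + 1 / (p : ℝ))) ^ 4 := by
            rw [mul_sum]
            apply sum_congr rfl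
            intro t _
            ring
        _ ≤ 2 * 200000 ^ 2 * X ^ 2 * (CC ^ 4 * T) := by
            have := moment T
            gcongr
        _ ≤ _ := by gcongr
    have h2 : 8 * ((2 : ℝ) ^ m) ^ 2 ≤ 16 * ((2 : ℝ) ^ m) ^ 3 / (m : ℝ) ^ 4 := by
      rw [le_div_iff₀ (by positivity)]
      have h3 : 4 * (2 : ℕ) * (m : ℝ) ^ 4 ≤ 2 ^ m := hg4
      push_cast at h3
      have h5 : (m : ℝ) ^ 4 ≤ 2 ^ m := by nlinarith [show (0 : ℝ) ≤ (m : ℝ) ^ 4 by positivity]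
      calc 8 * ((2 : ℝ) ^ m) ^ 2 * (m : ℝ) ^ 4 ≤ 8 * ((2 : ℝ) ^ m) ^ 2 * 2 ^ m := by gcongr
        _ ≤ _ := by nlinarith [show (0 : ℝ) ≤ ((2 : ℝ) ^ m) ^ 3 by positivity]
    have h3 : 2 * 200000 ^ 2 * X ^ 2 * (CC ^ 4 * 2 ^ m) =
        8 * 200000 ^ 2 * CC ^ 4 * ((2 : ℝ) ^ m) ^ 3 / (m : ℝ) ^ 4 := by
      rw [hX]
      field_simp
      ring
    have h4 : 16 * ((2 : ℝ) ^ m) ^ 3 / (m : ℝ) ^ 4 +
        8 * 200000 ^ 2 * CC ^ 4 * ((2 : ℝ) ^ m) ^ 3 / (m : ℝ) ^ 4 ≤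
        (K + 16 * (m₁ + 1 : ℝ) ^ 4) * ((2 : ℝ) ^ m) ^ 3 / (m : ℝ) ^ 4 := by
      rw [← add_div, ← add_mul, hK]
      have h5 : 16 + 8 * 200000 ^ 2 * CC ^ 4 ≤
          16 + 16 * 200000 ^ 2 * CC ^ 4 + 16 * (m₁ + 1 : ℝ) ^ 4 := by
        have h6 : (0 : ℝ) ≤ CC ^ 4 := by positivity
        have h7 : (0 : ℝ) ≤ 16 * (m₁ + 1 : ℝ) ^ 4 := by positivity
        linarith
      exact div_le_div_of_nonneg_right (mul_le_mul_of_nonneg_right h5 (by positivity))
        (by positivity)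
    rw [h3] at h1
    linarith
  · have hlt : (m : ℝ) ≤ m₁ + 1 := by
      have : m ≤ m₁ + 1 := by omega
      exact_mod_cast this
    have h1 : (Quad S).card ≤ S.card ^ 3 := by
      have h2 : (Quad S).card ≤ (S ×ˢ (S ×ˢ S)).card := by
        apply Finset.card_le_card_of_injOn (fun x => (x.1.1, x.1.2, x.2.1))
        · intro x hx
          simp only [Quad, coe_filter, mem_product, Set.mem_ofPred_eq] at hx
          simp only [coe_product, Set.mem_prod, mem_coe]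
          exact ⟨hx.1.1.1, hx.1.1.2, hx.1.2.1⟩
        · intro x hx y hy h
          simp only [Quad, coe_filter, mem_product, Set.mem_ofPred_eq, Prod.mk.injEq] at hx hy h
          refine Prod.ext (Prod.ext h.1 h.2.1) (Prod.ext h.2.2 ?_)
          have h7 := hx.2
          have h8 := hy.2
          omega
      rw [card_product, card_product] at h2
      calc (Quad S).card ≤ _ := h2
        _ = _ := by ring
    have h2 : ((Quad S).card : ℝ) ≤ (S.card : ℝ) ^ 3 := by exact_mod_cast h1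
    refine h2.trans ?_
    rw [le_div_iff₀ (by positivity)]
    calc (S.card : ℝ) ^ 3 * (m : ℝ) ^ 4 ≤ (2 * 2 ^ m) ^ 3 * (m₁ + 1 : ℝ) ^ 4 := by gcongr
      _ ≤ (K + 16 * (m₁ + 1 : ℝ) ^ 4) * ((2 : ℝ) ^ m) ^ 3 := by
        have h5 : (0 : ℝ) ≤ ((2 : ℝ) ^ m) ^ 3 * (m₁ + 1 : ℝ) ^ 4 := by positivity
        have h6 : (0 : ℝ) ≤ K * ((2 : ℝ) ^ m) ^ 3 := by positivity
        nlinarith

end Pool.Agent.H56.QP
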