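import Pool.Agent.H56.QP.FM

/-!
Fourth moment of the exponential sum over primes of one octave with complex coefficients
(MP_c59857_nt, Riesz lower bound).
-/

set_option autoImplicit false

open Finset

namespace Pool.Agent.H56.QP

open Pool.Agent.H6.N4D

/-- the exponential sum -/
noncomputable def PC (S : Finset ℕ) (e : ℕ → ℂ) (h M ξ : ℕ) : ℂ :=
  ∑ q ∈ S, e q * ee ((((q : ℤ) * h : ℤ) : ℝ) * ξ / M)

theorem PC_sq (S : Finset ℕ) (e : ℕ → ℂ) (h M ξ : ℕ) :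
    PC S e h M ξ * (starRingEnd ℂ) (PC S e h M ξ) = ∑ y ∈ S ×ˢ S,
      (e y.1 * (starRingEnd ℂ) (e y.2)) *
      ee (((((y.1 : ℤ) - y.2) * h : ℤ) : ℝ) * ξ / M) := by
  unfold PC
  rw [map_sum, sum_mul_sum, sum_product]
  apply sum_congr rfl
  intro q _
  apply sum_congr rfl
  intro q' _
  rw [map_mul, Pool.Agent.H6.GS2.conj_ee]
  rw [show e q * ee ((((q : ℤ) * h : ℤ) : ℝ) * ξ / M) *
      ((starRingEnd ℂ) (e q') * ee (-((((q' : ℤ) * h : ℤ) : ℝ) * ξ / M))) =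
      (e q * (starRingEnd ℂ) (e q')) *
      (ee ((((q : ℤ) * h : ℤ) : ℝ) * ξ / M) * ee (-((((q' : ℤ) * h : ℤ) : ℝ) * ξ / M))) by ring,
    ← ee_add]
  push_cast
  congr 2
  ring

/-- the fourth moment -/
theorem fourthC (S : Finset ℕ) (e : ℕ → ℂ) (h M m : ℕ) (hh : 1 ≤ h) (he : ∀ q, ‖e q‖ ≤ 1)
    (hS : ∀ q ∈ S, 2 ^ m ≤ q ∧ q ≤ 2 ^ (m + 1)) (hM : 2 * 2 ^ m * h < M) :
    ∑ ξ ∈ range M, ‖PC S e h M ξ‖ ^ 4 ≤ M * (Quad S).card := by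
  have e0 : ∀ ξ, ((‖PC S e h M ξ‖ ^ 4 : ℝ) : ℂ) = ∑ x ∈ (S ×ˢ S) ×ˢ (S ×ˢ S),
      (e x.1.1 * (starRingEnd ℂ) (e x.1.2) * (e x.2.1 * (starRingEnd ℂ) (e x.2.2))) *
      ee ((((((x.1.1 : ℤ) - x.1.2) + ((x.2.1 : ℤ) - x.2.2)) * h : ℤ) : ℝ) * ξ / M) := by
    intro ξ
    have h1 : ((‖PC S e h M ξ‖ ^ 4 : ℝ) : ℂ) =
        (PC S e h M ξ * (starRingEnd ℂ) (PC S e h M ξ)) *
        (PC S e h M ξ * (starRingEnd ℂ) (PC S e h M ξ)) := by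
      rw [Complex.mul_conj']
      push_cast
      ring
    rw [h1, PC_sq, sum_mul_sum, sum_product (S ×ˢ S) (S ×ˢ S)]
    apply sum_congr rfl
    intro y _
    apply sum_congr rfl
    intro z _
    rw [mul_mul_mul_comm, ← ee_add]
    push_cast
    congr 2
    ring
  have e1 : ((∑ ξ ∈ range M, ‖PC S e h M ξ‖ ^ 4 : ℝ) : ℂ) = ∑ x ∈ (S ×ˢ S) ×ˢ (S ×ˢ S),
      (e x.1.1 * (starRingEnd ℂ) (e x.1.2) * (e x.2.1 * (starRingEnd ℂ) (e x.2.2))) *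
      ∑ ξ ∈ range M,
      ee ((((((x.1.1 : ℤ) - x.1.2) + ((x.2.1 : ℤ) - x.2.2)) * h : ℤ) : ℝ) * ξ / M) := by
    rw [Complex.ofReal_sum, sum_congr rfl (fun ξ _ => e0 ξ), sum_comm]
    apply sum_congr rfl
    intro x _
    rw [mul_sum]
  have h0 : 0 ≤ ∑ ξ ∈ range M, ‖PC S e h M ξ‖ ^ 4 := sum_nonneg (fun _ _ => by positivity)
  have h1 : ∑ ξ ∈ range M, ‖PC S e h M ξ‖ ^ 4 =
      ‖((∑ ξ ∈ range M, ‖PC S e h M ξ‖ ^ 4 : ℝ) : ℂ)‖ := by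
    rw [Complex.norm_real, Real.norm_of_nonneg h0]
  rw [h1, e1]
  refine (norm_sum_le _ _).trans ?_
  have h2 : ∀ x ∈ (S ×ˢ S) ×ˢ (S ×ˢ S),
      ‖(e x.1.1 * (starRingEnd ℂ) (e x.1.2) * (e x.2.1 * (starRingEnd ℂ) (e x.2.2))) *
      ∑ ξ ∈ range M,
      ee ((((((x.1.1 : ℤ) - x.1.2) + ((x.2.1 : ℤ) - x.2.2)) * h : ℤ) : ℝ) * ξ / M)‖ ≤
      if x.1.1 + x.2.1 = x.1.2 + x.2.2 then (M : ℝ) else 0 := by
    intro x hx
    simp only [mem_product] at hx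
    obtain ⟨⟨h1, h2⟩, h3, h4⟩ := hx
    have a1 := hS _ h1
    have a2 := hS _ h2
    have a3 := hS _ h3
    have a4 := hS _ h4
    have hpp : 2 ^ (m + 1) = 2 * 2 ^ m := by ring
    rw [norm_mul]
    have b1 : ‖e x.1.1 * (starRingEnd ℂ) (e x.1.2) * (e x.2.1 * (starRingEnd ℂ) (e x.2.2))‖ ≤
        1 := by
      rw [norm_mul, norm_mul, norm_mul, RCLike.norm_conj, RCLike.norm_conj]
      have c1 : ‖e x.1.1‖ * ‖e x.1.2‖ ≤ 1 := mul_le_one₀ (he _) (norm_nonneg _) (he _)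
      have c2 : ‖e x.2.1‖ * ‖e x.2.2‖ ≤ 1 := mul_le_one₀ (he _) (norm_nonneg _) (he _)
      exact mul_le_one₀ c1 (by positivity) c2
    split_ifs with hc
    · calc _ ≤ 1 * ‖∑ ξ ∈ range M,
            ee ((((((x.1.1 : ℤ) - x.1.2) + ((x.2.1 : ℤ) - x.2.2)) * h : ℤ) : ℝ) * ξ / M)‖ := by
            gcongr
        _ ≤ 1 * ∑ ξ ∈ range M, (1 : ℝ) := by
            gcongr
            refine (norm_sum_le _ _).trans ?_
            apply sum_le_sum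
            intro ξ _
            rw [norm_ee]
        _ = M := by simp
    · rw [orth M _ ?_ ?_]
      · simp
      · intro h0
        rcases mul_eq_zero.1 h0 with h5 | h5
        · apply hc
          omega
        · have : h = 0 := by exact_mod_cast h5
          omega
      · rw [abs_mul, Nat.abs_cast]
        have c1 : |((x.1.1 : ℤ) - x.1.2) + ((x.2.1 : ℤ) - x.2.2)| ≤ 2 * 2 ^ m := by
          have q1 : ((2 ^ m : ℕ) : ℤ) ≤ x.1.1 := by exact_mod_cast a1.1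
          have q2 : ((2 ^ m : ℕ) : ℤ) ≤ x.1.2 := by exact_mod_cast a2.1
          have q3 : ((2 ^ m : ℕ) : ℤ) ≤ x.2.1 := by exact_mod_cast a3.1
          have q4 : ((2 ^ m : ℕ) : ℤ) ≤ x.2.2 := by exact_mod_cast a4.1
          have r1 : (x.1.1 : ℤ) ≤ 2 * ((2 ^ m : ℕ) : ℤ) := by
            have := a1.2; rw [hpp] at this; exact_mod_cast this
          have r2 : (x.1.2 : ℤ) ≤ 2 * ((2 ^ m : ℕ) : ℤ) := by
            have := a2.2; rw [hpp] at this; exact_mod_cast this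
          have r3 : (x.2.1 : ℤ) ≤ 2 * ((2 ^ m : ℕ) : ℤ) := by
            have := a3.2; rw [hpp] at this; exact_mod_cast this
          have r4 : (x.2.2 : ℤ) ≤ 2 * ((2 ^ m : ℕ) : ℤ) := by
            have := a4.2; rw [hpp] at this; exact_mod_cast this
          have hp : ((2 ^ m : ℕ) : ℤ) = 2 ^ m := by push_cast; rfl
          rw [← hp, abs_le]
          constructor <;> linarith
        have c2 : ((2 * 2 ^ m * h : ℕ) : ℤ) < M := by exact_mod_cast hM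
        push_cast at c2
        have c3 : (0 : ℤ) ≤ h := by positivity
        calc |((x.1.1 : ℤ) - x.1.2) + ((x.2.1 : ℤ) - x.2.2)| * (h : ℤ) ≤
            2 * 2 ^ m * h := by gcongr
          _ < M := c2
  refine (sum_le_sum h2).trans ?_
  rw [← sum_filter, sum_const, nsmul_eq_mul, mul_comm]
  exact le_of_eq rfl

/-- few large frequencies -/
theorem fewC : ∃ C : ℝ, 0 < C ∧ ∀ (m h M : ℕ) (S : Finset ℕ) (e : ℕ → ℂ) (τ : ℝ), 1 ≤ m → 1 ≤ h →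
    2 * 2 ^ m * h < M → 0 < τ → (∀ q ∈ S, q.Prime ∧ 2 ^ m ≤ q ∧ q ≤ 2 ^ (m + 1)) →
    (∀ q, ‖e q‖ ≤ 1) →
    (((range M).filter (fun ξ => τ * (S.card : ℝ) ^ 2 ≤ ‖PC S e h M ξ‖ ^ 2)).card : ℝ) *
      (τ ^ 2 * (S.card : ℝ) ^ 4) ≤ C * M * ((2 : ℝ) ^ m) ^ 3 / (m : ℝ) ^ 4 := by
  obtain ⟨C, hC, hpen⟩ := pen
  refine ⟨C, hC, fun m h M S e τ hm hh hM hτ hS he => ?_⟩
  have h1 := fourthC S e h M m hh he (fun q hq => (hS q hq).2) hM
  have h2 := hpen m S hm hS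
  have h3 : (((range M).filter (fun ξ => τ * (S.card : ℝ) ^ 2 ≤ ‖PC S e h M ξ‖ ^ 2)).card : ℝ) *
      (τ ^ 2 * (S.card : ℝ) ^ 4) ≤ ∑ ξ ∈ range M, ‖PC S e h M ξ‖ ^ 4 := by
    rw [← nsmul_eq_mul, ← sum_const]
    refine le_trans ?_ (sum_le_sum_of_subset_of_nonneg (filter_subset
      (fun ξ => τ * (S.card : ℝ) ^ 2 ≤ ‖PC S e h M ξ‖ ^ 2) (range M)) (fun _ _ _ => by positivity))
    apply sum_le_sum
    intro ξ hξ
    rw [mem_filter] at hξ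
    calc τ ^ 2 * (S.card : ℝ) ^ 4 = (τ * (S.card : ℝ) ^ 2) ^ 2 := by ring
      _ ≤ (‖PC S e h M ξ‖ ^ 2) ^ 2 := pow_le_pow_left₀ (by positivity) hξ.2 2
      _ = _ := by ring
  refine h3.trans (h1.trans ?_)
  calc (M : ℝ) * (Quad S).card ≤ M * (C * ((2 : ℝ) ^ m) ^ 3 / (m : ℝ) ^ 4) := by
        gcongr
        exact h2
    _ = _ := by ring

end Pool.Agent.H56.QP
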