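import Pool.Agent.H87.QP.Targets
import Pool.Agent.H56.QP.PEN

/-!
Row PEN of theorem (QP) (MP_c59857_nt).
-/

set_option autoImplicit false

namespace Pool.Agent.H56.QP

open Pool.Agent.H87.QP

/-- row PEN -/
theorem pf_PEN : T_PEN := by
  obtain ⟨C, hC, h⟩ := pen
  refine ⟨C, hC, fun m S hm hS => ?_⟩
  have h1 := h m S hm hS
  rw [← pow_mul, mul_comm m 3] at h1
  exact h1

end Pool.Agent.H56.QP
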